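import Mathlib

/-!
# The curse of dimensionality for `L₁`-type integration with non-negative weights

After multiplication with `2^d` the error of a formula is the `L₁` distance between
`∑ b_k p_k` and the density `μ(x) = ∏ 2 x_j`, where `b_k ≥ 0` and `p_k` is the uniform density on
the box `[t_k, 1]`. The box carries almost all of `p_k` on a set `S_k` of exponentially small
`μ`-measure, since the Hellinger affinity of `2x` on `[0,1]` and the uniform density on `[t,1]` is
at most `√0.95`. A function which is `-1` on `⋃ S_k` and `1` elsewhere shows that the error is at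
least `1 - 2 N 0.97^d`.
-/

open MeasureTheory Set Filter Topology
open scoped ENNReal

namespace Pool.Agent.Results.MP_2335a4_an.CurseHolds

/-- The unit ball of `F_{d,∞}`: the functions `f(x) = ∫_{[x,1]} g` with `|g| ≤ 1` (up to the sign
`(-1)^d`, `g` is the mixed derivative of `f`; `f` vanishes if some coordinate is `1`). -/
def Ball (d : ℕ) : Set ((Fin d → ℝ) → ℝ) :=
  {f | ∃ g : (Fin d → ℝ) → ℝ, Measurable g ∧ (∀ y, |g y| ≤ 1) ∧
    ∀ x ∈ Icc (0 : Fin d → ℝ) 1, f x = ∫ y in Icc x 1, g y}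

/-- The integral `I_d(f)` over the unit cube. -/
noncomputable def integ {d : ℕ} (f : (Fin d → ℝ) → ℝ) : ℝ := ∫ x in Icc (0 : Fin d → ℝ) 1, f x

/-- The quadrature formula `∑ a_k f(t_k)`. -/
noncomputable def quad {d N : ℕ} (a : Fin N → ℝ) (t : Fin N → Fin d → ℝ)
    (f : (Fin d → ℝ) → ℝ) : ℝ := ∑ k, a k * f (t k)

/-- The worst-case error on the unit ball. -/
noncomputable def err {d N : ℕ} (a : Fin N → ℝ) (t : Fin N → Fin d → ℝ) : ℝ≥0∞ :=
  ⨆ f ∈ Ball d, ENNReal.ofReal |integ f - quad a t f|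

/-- `e⁺(N, d)`: the infimum of the errors of the formulas with non-negative weights and `N` nodes
in `[0,1)^d`. -/
noncomputable def eplus (N d : ℕ) : ℝ≥0∞ :=
  ⨅ (a : Fin N → ℝ) (t : Fin N → Fin d → ℝ) (_ : ∀ k, 0 ≤ a k)
    (_ : ∀ k j, 0 ≤ t k j ∧ t k j < 1), err a t

/-! ### Product integrals -/

variable {d : ℕ}

lemma prod_Icc (t : Fin d → ℝ) (f : ℝ → ℝ) :
    ∫ y in Icc t 1, ∏ j, f (y j) = ∏ j, ∫ x in Icc (t j) 1, f x := by
  rw [← pi_univ_Icc, volume_pi, Measure.restrict_pi_pi, integral_fintype_prod_eq_prod]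
  rfl

/-- product of the coordinates -/
def W (y : Fin d → ℝ) : ℝ := ∏ j, y j

lemma measurable_W : Measurable (W (d := d)) := by
  unfold W
  exact Finset.measurable_prod _ fun j _ => measurable_pi_apply j

lemma W_nonneg {y : Fin d → ℝ} (hy : y ∈ Icc (0 : Fin d → ℝ) 1) : 0 ≤ W y :=
  Finset.prod_nonneg fun j _ => hy.1 j

lemma W_le {y : Fin d → ℝ} (hy : y ∈ Icc (0 : Fin d → ℝ) 1) : W y ≤ 1 :=
  Finset.prod_le_one (fun j _ => hy.1 j) fun j _ => hy.2 j

lemma integral_W : ∫ y in Icc (0 : Fin d → ℝ) 1, W y = (1 / 2) ^ d := by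
  unfold W
  rw [prod_Icc (0 : Fin d → ℝ) (fun x => x)]
  have h : ∀ j : Fin d, ∫ x in Icc ((0 : Fin d → ℝ) j) 1, x = (1 / 2 : ℝ) := by
    intro j
    rw [Pi.zero_apply, integral_Icc_eq_integral_Ioc, ← intervalIntegral.integral_of_le zero_le_one,
      integral_id]
    norm_num
  rw [Finset.prod_congr rfl fun j _ => h j, Finset.prod_const, Finset.card_univ, Fintype.card_fin]

/-- the one dimensional inequality -/
lemma one_dim {t : ℝ} (h0 : 0 ≤ t) (h1 : t < 1) :
    ∫ x in Icc t 1, Real.sqrt x ≤ Real.sqrt (0.95 / 2) * Real.sqrt (1 - t) := by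
  have hint : ∫ x in Icc t 1, Real.sqrt x = 2 / 3 * (1 - (Real.sqrt t) ^ 3) := by
    rw [integral_Icc_eq_integral_Ioc, ← intervalIntegral.integral_of_le h1.le]
    have h2 : ∀ x, Real.sqrt x = x ^ (1 / 2 : ℝ) := fun x => Real.sqrt_eq_rpow x
    simp_rw [h2]
    rw [integral_rpow (Or.inl (by norm_num))]
    have h3 : (1 / 2 : ℝ) + 1 = 3 / 2 := by norm_num
    rw [h3, Real.one_rpow, ← Real.rpow_natCast, ← Real.rpow_mul h0]
    norm_num
    ring
  rw [hint, ← Real.sqrt_mul (by norm_num)]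
  obtain ⟨s, hs⟩ : ∃ s, s = Real.sqrt t := ⟨_, rfl⟩
  have hs0 : 0 ≤ s := by rw [hs]; exact Real.sqrt_nonneg t
  have hst : t = s ^ 2 := by rw [hs, Real.sq_sqrt h0]
  have hs1 : s < 1 := by
    by_contra h
    push Not at h
    nlinarith
  rw [← hs, hst]
  apply Real.le_sqrt_of_sq_le
  have hkey : 0 ≤ 0.95 * (1 + s) - 8 / 9 * ((1 - s) * (1 + s + s ^ 2) ^ 2) := by
    have h4 : 0.95 * (1 + s) - 8 / 9 * ((1 - s) * (1 + s + s ^ 2) ^ 2) =
        (0.95 - 8 / 9) * (1 + s) - 8 / 9 * (s ^ 2 * (1 - s - s ^ 2 - s ^ 3)) := by ring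
    rw [h4]
    by_cases h5 : 1 - s - s ^ 2 - s ^ 3 ≤ 0
    · have : s ^ 2 * (1 - s - s ^ 2 - s ^ 3) ≤ 0 :=
        mul_nonpos_of_nonneg_of_nonpos (sq_nonneg s) h5
      nlinarith
    · push Not at h5
      -- `s² (1 - s - s² - s³) ≤ s² (1 - s - s²) ≤ 0.068`
      have h6 : s ^ 2 * (1 - s - s ^ 2 - s ^ 3) ≤ 0.061 + 0.02 * s := by
        nlinarith [sq_nonneg (s - 0.38), sq_nonneg (s ^ 2 - 0.1444), mul_nonneg hs0 hs0,
          mul_nonneg (mul_nonneg hs0 hs0) hs0, sq_nonneg (s ^ 2 - 0.38 * s),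
          mul_nonneg hs0 (sq_nonneg (s - 0.38)), mul_nonneg hs0 (sq_nonneg (s ^ 2 - 0.38 * s))]
      nlinarith
  have h7 : 0 ≤ (1 - s) * (0.95 * (1 + s) - 8 / 9 * ((1 - s) * (1 + s + s ^ 2) ^ 2)) :=
    mul_nonneg (by linarith) hkey
  nlinarith

/-- the volume of a box -/
noncomputable def vol (t : Fin d → ℝ) : ℝ := ∏ j, (1 - t j)

lemma vol_pos {t : Fin d → ℝ} (ht : ∀ j, 0 ≤ t j ∧ t j < 1) : 0 < vol t :=
  Finset.prod_pos fun j _ => by linarith [(ht j).2]

lemma integral_sqrt_W {t : Fin d → ℝ} (ht : ∀ j, 0 ≤ t j ∧ t j < 1) :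
    ∫ y in Icc t 1, Real.sqrt (W y) ≤ Real.sqrt ((0.95 / 2) ^ d) * Real.sqrt (vol t) := by
  have h1 : ∫ y in Icc t 1, Real.sqrt (W y) = ∫ y in Icc t 1, ∏ j, Real.sqrt (y j) := by
    refine setIntegral_congr_fun measurableSet_Icc fun y hy => ?_
    simp only [W]
    exact Real.sqrt_prod _ fun j _ => (ht j).1.trans (hy.1 j)
  rw [h1, prod_Icc t Real.sqrt]
  have h2 : Real.sqrt ((0.95 / 2) ^ d) * Real.sqrt (vol t) =
      ∏ j : Fin d, (Real.sqrt (0.95 / 2) * Real.sqrt (1 - t j)) := by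
    rw [Finset.prod_mul_distrib, Finset.prod_const, Finset.card_univ, Fintype.card_fin]
    unfold vol
    rw [Real.sqrt_prod _ fun j _ => by linarith [(ht j).2]]
    congr 1
    have h3 := Real.sqrt_prod (Finset.univ : Finset (Fin d)) (x := fun _ => (0.95 / 2 : ℝ))
      (fun _ _ => by norm_num)
    rw [Finset.prod_const, Finset.prod_const, Finset.card_univ, Fintype.card_fin] at h3
    exact h3
  rw [h2]
  refine Finset.prod_le_prod (fun j _ => ?_) fun j _ => one_dim (ht j).1 (ht j).2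
  exact integral_nonneg fun x => Real.sqrt_nonneg x

/-! ### Fubini -/

lemma fubini {g : (Fin d → ℝ) → ℝ} (hg : Measurable g) (hg1 : ∀ y, |g y| ≤ 1) :
    ∫ x in Icc (0 : Fin d → ℝ) 1, ∫ y in Icc x 1, g y =
      ∫ y in Icc (0 : Fin d → ℝ) 1, g y * W y := by
  obtain ⟨Q, hQ⟩ : ∃ Q : Set (Fin d → ℝ), Q = Icc 0 1 := ⟨_, rfl⟩
  rw [← hQ]
  have hQm : MeasurableSet Q := by rw [hQ]; exact measurableSet_Icc
  have hQf : volume Q ≠ ⊤ := by rw [hQ]; exact isCompact_Icc.measure_ne_top
  classical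
  obtain ⟨F, hF⟩ : ∃ F : (Fin d → ℝ) → (Fin d → ℝ) → ℝ,
    F = fun x y => if x ≤ y then g y else 0 := ⟨_, rfl⟩
  have h1 : ∫ x in Q, ∫ y in Icc x 1, g y = ∫ x in Q, ∫ y in Q, F x y := by
    refine setIntegral_congr_fun hQm fun x hx => ?_
    rw [hQ] at hx
    have h2 : (fun y => F x y) = (Ici x).indicator g := by
      rw [hF]
      funext y
      simp only [indicator_apply, mem_Ici]
    rw [h2, setIntegral_indicator measurableSet_Ici]
    congr 2
    rw [hQ]
    ext y
    simp only [mem_Icc, mem_inter_iff, mem_Ici]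
    constructor
    · rintro ⟨h3, h4⟩
      exact ⟨⟨hx.1.trans h3, h4⟩, h3⟩
    · rintro ⟨⟨-, h4⟩, h3⟩
      exact ⟨h3, h4⟩
  have hFm : Measurable (Function.uncurry F) := by
    rw [hF]
    refine Measurable.ite ?_ (hg.comp measurable_snd) measurable_const
    exact measurableSet_le measurable_fst measurable_snd
  have hint : Integrable (Function.uncurry F)
      ((volume.restrict Q).prod (volume.restrict Q)) := by
    have : IsFiniteMeasure (volume.restrict Q) := ⟨by
      rw [Measure.restrict_apply_univ]; exact hQf.lt_top⟩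
    refine Integrable.of_bound hFm.aestronglyMeasurable 1 (Eventually.of_forall fun p => ?_)
    rw [hF]
    simp only [Function.uncurry]
    split_ifs
    · exact hg1 _
    · simp
  rw [h1, integral_integral_swap hint]
  refine setIntegral_congr_fun hQm fun y hy => ?_
  rw [hQ] at hy
  have h2 : (fun x => F x y) = (Iic y).indicator (fun _ => g y) := by
    rw [hF]
    funext x
    simp only [indicator_apply, mem_Iic]
  rw [h2, setIntegral_indicator measurableSet_Iic, setIntegral_const, smul_eq_mul, mul_comm]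
  congr 1
  have h3 : Q ∩ Iic y = Icc 0 y := by
    rw [hQ]
    ext x
    simp only [mem_Icc, mem_inter_iff, mem_Iic]
    constructor
    · rintro ⟨⟨h3, -⟩, h4⟩
      exact ⟨h3, h4⟩
    · rintro ⟨h3, h4⟩
      exact ⟨⟨h3, h4.trans hy.2⟩, h4⟩
  rw [h3, measureReal_def, Real.volume_Icc_pi_toReal hy.1]
  simp [W]

/-! ### The lower bound -/

lemma integrable_of_bdd {t : Fin d → ℝ} {f : (Fin d → ℝ) → ℝ} (hf : Measurable f) (C : ℝ)
    (h : ∀ y ∈ Icc t 1, |f y| ≤ C) : IntegrableOn f (Icc t 1) := by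
  have : IsFiniteMeasure (volume.restrict (Icc t 1)) := ⟨by
    rw [Measure.restrict_apply_univ]; exact isCompact_Icc.measure_lt_top⟩
  refine Integrable.of_bound hf.aestronglyMeasurable C ?_
  filter_upwards [ae_restrict_mem measurableSet_Icc] with y hy using h y hy

lemma lower {N : ℕ} (a : Fin N → ℝ) (t : Fin N → Fin d → ℝ) (ha : ∀ k, 0 ≤ a k)
    (ht : ∀ k j, 0 ≤ t k j ∧ t k j < 1) (hd : (0.95 / 0.97 : ℝ) ^ d ≤ 1 / 4) :
    ∃ f ∈ Ball d, (1 / 2 : ℝ) ^ d * (1 - 2 * N * 0.97 ^ d) ≤ integ f - quad a t f := by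
  classical
  obtain ⟨κ, hκ⟩ : ∃ κ : Fin N → ℝ, κ = fun k => (0.97 / 2) ^ d / vol (t k) := ⟨_, rfl⟩
  have hvol : ∀ k, 0 < vol (t k) := fun k => vol_pos (ht k)
  have hκ0 : ∀ k, 0 < κ k := by
    intro k; rw [hκ]; have := hvol k; positivity
  obtain ⟨S, hS⟩ : ∃ S : Set (Fin d → ℝ), S = ⋃ k, (Icc (t k) 1 ∩ {y | W y ≤ κ k}) := ⟨_, rfl⟩
  have hSm : MeasurableSet S := by
    rw [hS]
    exact MeasurableSet.iUnion fun k =>
      measurableSet_Icc.inter (measurableSet_le measurable_W measurable_const)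
  obtain ⟨g, hg⟩ : ∃ g : (Fin d → ℝ) → ℝ, g = fun y => if y ∈ S then -1 else 1 := ⟨_, rfl⟩
  have hgm : Measurable g := by
    rw [hg]; exact Measurable.ite hSm measurable_const measurable_const
  have hg1 : ∀ y, |g y| ≤ 1 := by
    intro y; rw [hg]; simp only; split_ifs <;> simp
  refine ⟨fun x => ∫ y in Icc x 1, g y, ⟨g, hgm, hg1, fun _ _ => rfl⟩, ?_⟩
  have hI : integ (fun x => ∫ y in Icc x 1, g y) = ∫ y in Icc (0 : Fin d → ℝ) 1, g y * W y :=
    fubini hgm hg1
  -- the volumes
  have hvolB : ∀ k, (volume (Icc (t k) 1)).toReal = vol (t k) := by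
    intro k
    rw [Real.volume_Icc_pi_toReal (a := t k) (b := 1) (fun j => (ht k j).2.le)]
    rfl
  -- the integral
  have h1 : (1 / 2 : ℝ) ^ d * (1 - 2 * N * 0.97 ^ d) ≤ ∫ y in Icc (0 : Fin d → ℝ) 1, g y * W y := by
    have hle : ∫ y in Icc (0 : Fin d → ℝ) 1,
        (W y - 2 * ∑ k, (Icc (t k) 1).indicator (fun _ => κ k) y) ≤
        ∫ y in Icc (0 : Fin d → ℝ) 1, g y * W y := by
      refine setIntegral_mono_on ?_ ?_ measurableSet_Icc fun y hy => ?_
      · refine integrable_of_bdd ?_ (1 + 2 * ∑ k, κ k) fun y hy => ?_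
        · refine measurable_W.sub (measurable_const.mul (Finset.measurable_sum _ fun k _ => ?_))
          exact measurable_const.indicator measurableSet_Icc
        · have h2 : ∑ k, (Icc (t k) 1).indicator (fun _ => κ k) y ≤ ∑ k, κ k :=
            Finset.sum_le_sum fun k _ => indicator_le_self' (fun _ _ => (hκ0 k).le) y
          have h3 : 0 ≤ ∑ k, (Icc (t k) 1).indicator (fun _ => κ k) y :=
            Finset.sum_nonneg fun k _ => indicator_nonneg (fun _ _ => (hκ0 k).le) y
          have h4 := W_nonneg hy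
          have h5 := W_le hy
          rw [abs_le]
          constructor <;> linarith
      · refine integrable_of_bdd (hgm.mul measurable_W) 1 fun y hy => ?_
        rw [abs_mul, abs_of_nonneg (W_nonneg hy)]
        exact mul_le_one₀ (hg1 y) (W_nonneg hy) (W_le hy)
      · have h3 : ∀ k, 0 ≤ (Icc (t k) 1).indicator (fun _ => κ k) y :=
          fun k => indicator_nonneg (fun _ _ => (hκ0 k).le) y
        have h4 := W_nonneg hy
        by_cases hyS : y ∈ S
        · have hyS' := hyS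
          rw [hS] at hyS'
          obtain ⟨k, hk1, hk2⟩ := mem_iUnion.1 hyS'
          have h5 : κ k ≤ ∑ k, (Icc (t k) 1).indicator (fun _ => κ k) y := by
            have h6 := Finset.single_le_sum (f := fun k => (Icc (t k) 1).indicator
              (fun _ => κ k) y) (fun k _ => h3 k) (Finset.mem_univ k)
            rwa [indicator_of_mem hk1] at h6
          have h7 : W y ≤ κ k := hk2
          have h8 : g y = -1 := by rw [hg]; simp [hyS]
          rw [h8]
          linarith
        · have h8 : g y = 1 := by rw [hg]; simp [hyS]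
          rw [h8]
          have h9 : 0 ≤ ∑ k, (Icc (t k) 1).indicator (fun _ => κ k) y :=
            Finset.sum_nonneg fun k _ => h3 k
          linarith
    refine le_trans (le_of_eq ?_) hle
    rw [integral_sub, integral_W, integral_const_mul, integral_finsetSum]
    · have h2 : ∀ k : Fin N, ∫ y in Icc (0 : Fin d → ℝ) 1,
          (Icc (t k) 1).indicator (fun _ => κ k) y = (0.97 / 2) ^ d := by
        intro k
        rw [setIntegral_indicator measurableSet_Icc, setIntegral_const]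
        have h3 : Icc (0 : Fin d → ℝ) 1 ∩ Icc (t k) 1 = Icc (t k) 1 := by
          apply inter_eq_right.2
          exact Icc_subset_Icc_left fun j => (ht k j).1
        rw [h3, measureReal_def, hvolB, smul_eq_mul, hκ]
        have := (hvol k).ne'
        field_simp
      rw [Finset.sum_congr rfl fun k _ => h2 k, Finset.sum_const, Finset.card_univ,
        Fintype.card_fin, nsmul_eq_mul, div_pow, div_pow, one_pow]
      ring
    · intro k _
      exact (integrable_of_bdd (measurable_const.indicator measurableSet_Icc) (κ k)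
        fun y _ => by
          rw [abs_of_nonneg (indicator_nonneg (fun _ _ => (hκ0 k).le) y)]
          exact indicator_le_self' (fun _ _ => (hκ0 k).le) y)
    · exact integrable_of_bdd measurable_W 1 fun y hy => by
        rw [abs_of_nonneg (W_nonneg hy)]; exact W_le hy
    · refine Integrable.const_mul (integrable_finsetSum _ fun k _ => ?_) 2
      exact (integrable_of_bdd (measurable_const.indicator measurableSet_Icc) (κ k)
        fun y _ => by
          rw [abs_of_nonneg (indicator_nonneg (fun _ _ => (hκ0 k).le) y)]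
          exact indicator_le_self' (fun _ _ => (hκ0 k).le) y)
  -- the nodes
  have h2 : ∀ k, ∫ y in Icc (t k) 1, g y ≤ 0 := by
    intro k
    have hpt : ∀ y ∈ Icc (t k) 1, g y ≤ -1 + 2 * (Real.sqrt (κ k))⁻¹ * Real.sqrt (W y) := by
      intro y hy
      have h3 : 0 ≤ 2 * (Real.sqrt (κ k))⁻¹ * Real.sqrt (W y) := by positivity
      by_cases hyS : y ∈ S
      · have h8 : g y = -1 := by rw [hg]; simp [hyS]
        rw [h8]; linarith
      · have h8 : g y = 1 := by rw [hg]; simp [hyS]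
        rw [h8]
        have h9 : κ k < W y := by
          by_contra hcon
          push Not at hcon
          apply hyS
          rw [hS]
          exact mem_iUnion.2 ⟨k, hy, hcon⟩
        have h10 : Real.sqrt (κ k) ≤ Real.sqrt (W y) := Real.sqrt_le_sqrt h9.le
        have h11 : 0 < Real.sqrt (κ k) := Real.sqrt_pos.2 (hκ0 k)
        have h12 : 1 ≤ (Real.sqrt (κ k))⁻¹ * Real.sqrt (W y) := by
          rw [inv_mul_eq_div, le_div_iff₀ h11, one_mul]
          exact h10
        linarith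
    have hcube : ∀ y ∈ Icc (t k) 1, y ∈ Icc (0 : Fin d → ℝ) 1 := fun y hy =>
      ⟨fun j => ((ht k j).1).trans (hy.1 j), hy.2⟩
    have hs : IntegrableOn (fun y => Real.sqrt (W y)) (Icc (t k) 1) :=
      integrable_of_bdd (Real.continuous_sqrt.measurable.comp measurable_W) 1 fun y hy => by
        rw [abs_of_nonneg (Real.sqrt_nonneg _)]
        exact Real.sqrt_le_one.2 (W_le (hcube y hy))
    have h3 : ∫ y in Icc (t k) 1, g y ≤
        ∫ y in Icc (t k) 1, (-1 + 2 * (Real.sqrt (κ k))⁻¹ * Real.sqrt (W y)) := by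
      refine setIntegral_mono_on (integrable_of_bdd hgm 1 fun y _ => hg1 y) ?_
        measurableSet_Icc hpt
      exact (integrable_of_bdd measurable_const 1 fun y _ => by simp).add (hs.const_mul _)
    refine h3.trans ?_
    rw [integral_add (integrable_of_bdd measurable_const 1 fun y _ => by simp) (hs.const_mul _),
      setIntegral_const, measureReal_def, hvolB, integral_const_mul, smul_eq_mul]
    have h4 := integral_sqrt_W (ht k)
    have h5 : (Real.sqrt (κ k))⁻¹ * (Real.sqrt ((0.95 / 2) ^ d) * Real.sqrt (vol (t k))) ≤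
        1 / 2 * vol (t k) := by
      have e1 : Real.sqrt (κ k) = Real.sqrt ((0.97 / 2) ^ d) / Real.sqrt (vol (t k)) := by
        rw [hκ]; exact Real.sqrt_div (by positivity) _
      have e2 : Real.sqrt ((0.95 / 2) ^ d) =
          Real.sqrt ((0.95 / 0.97) ^ d) * Real.sqrt ((0.97 / 2) ^ d) := by
        rw [← Real.sqrt_mul (by positivity), ← mul_pow]
        norm_num
      have e3 : Real.sqrt ((0.95 / 0.97) ^ d) ≤ 1 / 2 := by
        rw [show (1 / 2 : ℝ) = Real.sqrt (1 / 4) by
          rw [show (1 / 4 : ℝ) = (1 / 2) ^ 2 by norm_num, Real.sqrt_sq (by norm_num)]]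
        exact Real.sqrt_le_sqrt hd
      have e4 : Real.sqrt (vol (t k)) * Real.sqrt (vol (t k)) = vol (t k) :=
        Real.mul_self_sqrt (hvol k).le
      have e5 : 0 < Real.sqrt (vol (t k)) := Real.sqrt_pos.2 (hvol k)
      have e6 : 0 < Real.sqrt ((0.97 / 2 : ℝ) ^ d) := Real.sqrt_pos.2 (by positivity)
      rw [e1, e2]
      generalize Real.sqrt ((0.95 / 0.97) ^ d) = R at *
      generalize Real.sqrt ((0.97 / 2 : ℝ) ^ d) = A at *
      have e7 : (A / Real.sqrt (vol (t k)))⁻¹ * (R * A * Real.sqrt (vol (t k))) =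
          R * (Real.sqrt (vol (t k)) * Real.sqrt (vol (t k))) := by
        field_simp
      rw [e7, e4]
      exact mul_le_mul_of_nonneg_right e3 (hvol k).le
    have h6 : 0 < (Real.sqrt (κ k))⁻¹ := inv_pos.2 (Real.sqrt_pos.2 (hκ0 k))
    have h7 := mul_le_mul_of_nonneg_left h4 h6.le
    nlinarith
  have hq : quad a t (fun x => ∫ y in Icc x 1, g y) ≤ 0 :=
    Finset.sum_nonpos fun k _ => mul_nonpos_of_nonneg_of_nonpos (ha k) (h2 k)
  rw [hI]
  linarith

/-- **The curse of dimensionality holds**: there is `C > 1` (for instance `1.02`) such that for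
every `ε ∈ (0,1)` and all large `d`, every number `N` of nodes with `e⁺(N, d) ≤ ε 2^(-d)` is at
least `C^d`. -/
theorem result : ∃ C : ℝ, 1 < C ∧ ∀ ε : ℝ, 0 < ε → ε < 1 → ∀ᶠ d : ℕ in atTop, ∀ N : ℕ,
    eplus N d ≤ ENNReal.ofReal (ε * (1 / 2) ^ d) → C ^ d ≤ N := by
  refine ⟨1.02, by norm_num, fun ε hε0 hε1 => ?_⟩
  have h1 := (tendsto_pow_atTop_nhds_zero_of_lt_one (show (0 : ℝ) ≤ 0.95 / 0.97 by norm_num)
    (show (0.95 / 0.97 : ℝ) < 1 by norm_num)).eventually
      (ge_mem_nhds (show (0 : ℝ) < 1 / 4 by norm_num))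
  have h2 := (tendsto_pow_atTop_nhds_zero_of_lt_one (show (0 : ℝ) ≤ 1.02 * 0.97 by norm_num)
    (show (1.02 * 0.97 : ℝ) < 1 by norm_num)).eventually
      (ge_mem_nhds (show (0 : ℝ) < (1 - ε) / 2 by linarith))
  filter_upwards [h1, h2] with d hd1 hd2 N hN
  have h3 : ENNReal.ofReal ((1 / 2 : ℝ) ^ d * (1 - 2 * N * 0.97 ^ d)) ≤ eplus N d := by
    unfold eplus
    refine le_iInf fun a => le_iInf fun t => le_iInf fun ha => le_iInf fun ht => ?_
    obtain ⟨f, hf, hle⟩ := lower a t ha ht hd1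
    refine le_trans (ENNReal.ofReal_le_ofReal (hle.trans (le_abs_self _))) ?_
    unfold err
    exact le_iSup₂ (f := fun f (_ : f ∈ Ball d) => ENNReal.ofReal |integ f - quad a t f|) f hf
  have h4 := h3.trans hN
  rw [ENNReal.ofReal_le_ofReal_iff (by positivity), mul_comm ε] at h4
  have h5 : (1 : ℝ) - 2 * N * 0.97 ^ d ≤ ε :=
    le_of_mul_le_mul_left h4 (by positivity)
  rw [mul_pow] at hd2
  have h6 : (1.02 : ℝ) ^ d * 0.97 ^ d ≤ N * 0.97 ^ d := by linarith
  exact le_of_mul_le_mul_right h6 (by positivity)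

end Pool.Agent.Results.MP_2335a4_an.CurseHolds
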